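import Pool.Agent.P.MP_7b53ad_ag.Weil

/-! Degree two Tate classes from pull-backs of one non-degenerate class. -/

namespace Pool.Agent.P.MP_7b53ad_ag.AV

open TensorProduct Polynomial Pool.Agent.P.MP_7b53ad_ag

section Anti
variable {Ω B R : Type*} [Field Ω] [Ring B] [Algebra Ω B]

lemma mul_prod_eq_zero (f : R → B) (hf : ∀ a b, f a * f b = -(f b * f a)) (h0 : ∀ a, f a * f a = 0)
    (a : R) (s : List R) (ha : a ∈ s) : f a * (s.map f).prod = 0 := by
  induction s with
  | nil => simp at ha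
  | cons b s ih =>
    rw [List.map_cons, List.prod_cons, ← mul_assoc]
    rcases List.mem_cons.1 ha with rfl | h
    · rw [h0, zero_mul]
    · rw [hf, neg_mul, mul_assoc, ih h, mul_zero, neg_zero]

lemma prod_eq_zero_of_not_nodup (f : R → B) (hf : ∀ a b, f a * f b = -(f b * f a))
    (h0 : ∀ a, f a * f a = 0) (s : List R) (hs : ¬ s.Nodup) : (s.map f).prod = 0 := by
  induction s with
  | nil => simp at hs
  | cons b s ih =>
    rw [List.map_cons, List.prod_cons]
    by_cases hb : b ∈ s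
    · exact mul_prod_eq_zero f hf h0 b s hb
    · rw [ih fun h => hs (List.nodup_cons.2 ⟨hb, h⟩), mul_zero]

lemma span_pow_eq_bot [Fintype R] (f : R → B) (hf : ∀ a b, f a * f b = -(f b * f a))
    (h0 : ∀ a, f a * f a = 0) (d : ℕ) (hd : Fintype.card R < d) :
    (Submodule.span Ω (Set.range f)) ^ d = ⊥ := by
  classical
  have h1 (d : ℕ) : (Submodule.span Ω (Set.range f)) ^ d ≤
      Submodule.span Ω {y | ∃ s : List R, s.length = d ∧ y = (s.map f).prod} := by
    induction d with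
    | zero =>
      rw [pow_zero, Submodule.one_le]
      exact Submodule.subset_span ⟨[], rfl, by simp⟩
    | succ d ih =>
      rw [pow_succ']
      refine (mul_le_mul' le_rfl ih).trans ?_
      rw [Submodule.span_mul_span]
      apply Submodule.span_mono
      rintro _ ⟨_, ⟨a, rfl⟩, _, ⟨s, hs, rfl⟩, rfl⟩
      exact ⟨a :: s, by simp [hs], by simp⟩
  refine le_bot_iff.1 ((h1 d).trans (Submodule.span_le.2 ?_))
  rintro _ ⟨s, hs, rfl⟩
  refine prod_eq_zero_of_not_nodup f hf h0 s fun h => ?_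
  have := h.length_le_card
  omega

end Anti

section Main
variable {E Ω V V' R : Type*} [Field E] [Field Ω] [Algebra E Ω] [AddCommGroup V] [Module E V]
  [AddCommGroup V'] [Module E V']

variable (E Ω V) in
/-- The scalar extension of the inclusion of `V` in its exterior algebra. -/
noncomputable abbrev io : Ω ⊗[E] V →ₗ[Ω] Ω ⊗[E] ExteriorAlgebra E V :=
  (ExteriorAlgebra.ι E).baseChange Ω

lemma io_anti (x y : Ω ⊗[E] V) : io E Ω V x * io E Ω V y = -(io E Ω V y * io E Ω V x) := by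
  induction x using TensorProduct.induction_on with
  | zero => simp
  | add x x' hx hx' => rw [map_add, add_mul, mul_add, hx, hx', neg_add]
  | tmul w a =>
    induction y using TensorProduct.induction_on with
    | zero => simp
    | add y y' hy hy' => rw [map_add, add_mul, mul_add, hy, hy', neg_add]
    | tmul w' a' =>
      simp only [LinearMap.baseChange_tmul, Algebra.TensorProduct.tmul_mul_tmul]
      rw [← TensorProduct.tmul_neg, mul_comm w, eq_neg_of_add_eq_zero_left
        (ExteriorAlgebra.ι_add_mul_swap a a')]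

lemma io_sq (x : Ω ⊗[E] V) : io E Ω V x * io E Ω V x = 0 := by
  induction x using TensorProduct.induction_on with
  | zero => simp
  | add x y hx hy => rw [map_add, add_mul, mul_add, mul_add, hx, hy, io_anti x y]; simp
  | tmul w a => simp [Algebra.TensorProduct.tmul_mul_tmul]

/-- The algebra map induced by a linear map between the scalar extensions. -/
noncomputable def theta (u : Ω ⊗[E] V →ₗ[Ω] Ω ⊗[E] V') :
    ExteriorAlgebra E V →ₐ[E] Ω ⊗[E] ExteriorAlgebra E V' :=
  ExteriorAlgebra.lift E ⟨((io E Ω V' ∘ₗ u).restrictScalars E) ∘ₗ TensorProduct.mk E Ω V 1,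
    fun _ => io_sq _⟩

lemma theta_ι (u : Ω ⊗[E] V →ₗ[Ω] Ω ⊗[E] V') (x : V) :
    theta u (ExteriorAlgebra.ι E x) = io E Ω V' (u (1 ⊗ₜ x)) := by
  simp [theta]

lemma theta_baseChange (u : V →ₗ[E] V') (t : ExteriorAlgebra E V) :
    theta (u.baseChange Ω) t = 1 ⊗ₜ ExteriorAlgebra.map u t := by
  have : theta (u.baseChange Ω) = (Algebra.TensorProduct.includeRight (R := E) (A := Ω)).comp
      (ExteriorAlgebra.map u) := by
    ext x
    simp [theta_ι]
  rw [this]
  rfl

lemma theta_map (u : Ω ⊗[E] V →ₗ[Ω] Ω ⊗[E] V') (F : V →ₗ[E] V) (t : ExteriorAlgebra E V) :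
    theta u (ExteriorAlgebra.map F t) = theta (u ∘ₗ F.baseChange Ω) t := by
  have : (theta u).comp (ExteriorAlgebra.map F) = theta (u ∘ₗ F.baseChange Ω) := by
    ext x
    simp [theta_ι]
  exact DFunLike.congr_fun this t

variable {N : ℕ} (a b : Fin N → V)

/-- The polarisation of `u ↦ theta u ω`. -/
noncomputable def pol (u v : Ω ⊗[E] V →ₗ[Ω] Ω ⊗[E] V') : Ω ⊗[E] ExteriorAlgebra E V' :=
  ∑ j, (io E Ω V' (u (1 ⊗ₜ a j)) * io E Ω V' (v (1 ⊗ₜ b j)) +
    io E Ω V' (v (1 ⊗ₜ a j)) * io E Ω V' (u (1 ⊗ₜ b j)))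

lemma theta_add (u v : Ω ⊗[E] V →ₗ[Ω] Ω ⊗[E] V') :
    theta (u + v) (∑ j, ExteriorAlgebra.ι E (a j) * ExteriorAlgebra.ι E (b j)) =
      theta u (∑ j, ExteriorAlgebra.ι E (a j) * ExteriorAlgebra.ι E (b j)) +
      theta v (∑ j, ExteriorAlgebra.ι E (a j) * ExteriorAlgebra.ι E (b j)) + pol a b u v := by
  simp only [map_sum, map_mul, theta_ι, pol, ← Finset.sum_add_distrib, LinearMap.add_apply,
    map_add]
  refine Finset.sum_congr rfl fun j _ => ?_
  noncomm_ring

lemma pol_mem (W : Submodule E (ExteriorAlgebra E V')) (S : Set (V →ₗ[E] V'))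
    (hadd : ∀ u ∈ S, ∀ v ∈ S, u + v ∈ S)
    (hS : ∀ u ∈ S, ExteriorAlgebra.map u
      (∑ j, ExteriorAlgebra.ι E (a j) * ExteriorAlgebra.ι E (b j)) ∈ W)
    {u v : Ω ⊗[E] V →ₗ[Ω] Ω ⊗[E] V'}
    (hu : u ∈ Submodule.span Ω ((fun w : V →ₗ[E] V' => w.baseChange Ω) '' S))
    (hv : v ∈ Submodule.span Ω ((fun w : V →ₗ[E] V' => w.baseChange Ω) '' S)) :
    pol a b u v ∈ W.baseChange Ω := by
  induction hu, hv using Submodule.span_induction₂ with
  | mem_mem u v hu hv =>
    obtain ⟨u, hu, rfl⟩ := hu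
    obtain ⟨v, hv, rfl⟩ := hv
    have h := theta_add (Ω := Ω) a b (u.baseChange Ω) (v.baseChange Ω)
    rw [← LinearMap.baseChange_add, theta_baseChange, theta_baseChange, theta_baseChange,
      ← sub_eq_iff_eq_add'] at h
    rw [← h]
    exact Submodule.sub_mem _ (Submodule.tmul_mem_baseChange_of_mem _ (hS _ (hadd u hu v hv)))
      (Submodule.add_mem _ (Submodule.tmul_mem_baseChange_of_mem _ (hS _ hu))
        (Submodule.tmul_mem_baseChange_of_mem _ (hS _ hv)))
  | zero_left => simp [pol]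
  | zero_right => simp [pol]
  | add_left u u' v _ _ _ h1 h2 =>
    convert Submodule.add_mem _ h1 h2 using 1
    simp only [pol, ← Finset.sum_add_distrib, LinearMap.add_apply, map_add]
    refine Finset.sum_congr rfl fun j _ => ?_
    noncomm_ring
  | add_right u v v' _ _ _ h1 h2 =>
    convert Submodule.add_mem _ h1 h2 using 1
    simp only [pol, ← Finset.sum_add_distrib, LinearMap.add_apply, map_add]
    refine Finset.sum_congr rfl fun j _ => ?_
    noncomm_ring
  | smul_left c u v _ _ h =>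
    convert Submodule.smul_mem _ c h using 1
    simp [pol, Finset.smul_sum]
  | smul_right c u v _ _ h =>
    convert Submodule.smul_mem _ c h using 1
    simp [pol, Finset.smul_sum]

variable (e : Module.Basis R Ω (Ω ⊗[E] V))

/-- The projection on the line of a basis vector. -/
noncomputable def prj (x : R) : Ω ⊗[E] V →ₗ[Ω] Ω ⊗[E] V := (e.coord x).smulRight (e x)

/-- The matrix of the alternating form. -/
noncomputable def mat (x y : R) : Ω :=
  ∑ j, (e.repr (1 ⊗ₜ a j) x * e.repr (1 ⊗ₜ b j) y - e.repr (1 ⊗ₜ a j) y * e.repr (1 ⊗ₜ b j) x)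

lemma pol_prj (u v : Ω ⊗[E] V →ₗ[Ω] Ω ⊗[E] V') (x y : R) :
    pol a b (u ∘ₗ prj e x) (v ∘ₗ prj e y) =
      mat a b e x y • (io E Ω V' (u (e x)) * io E Ω V' (v (e y))) := by
  simp only [pol, mat, prj, LinearMap.comp_apply, LinearMap.smulRight_apply, map_smul,
    Module.Basis.coord_apply, Finset.sum_smul, smul_mul_smul_comm]
  refine Finset.sum_congr rfl fun j _ => ?_
  rw [io_anti (v (e y)), smul_neg, sub_smul, sub_eq_add_neg]

lemma theta_prj (u : Ω ⊗[E] V →ₗ[Ω] Ω ⊗[E] V') (x : R) :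
    theta (u ∘ₗ prj e x) (∑ j, ExteriorAlgebra.ι E (a j) * ExteriorAlgebra.ι E (b j)) = 0 := by
  simp only [map_sum, map_mul, theta_ι, prj, LinearMap.comp_apply, LinearMap.smulRight_apply,
    map_smul, smul_mul_smul_comm, io_sq, smul_zero, Finset.sum_const_zero]

lemma comp_prj_mem [Fintype R] [DecidableEq R] (F : Ω ⊗[E] V →ₗ[Ω] Ω ⊗[E] V) (ε : R → Ω)
    (hε : Function.Injective ε) (he : ∀ x, F (e x) = ε x • e x)
    (T : Submodule Ω (Ω ⊗[E] V →ₗ[Ω] Ω ⊗[E] V')) (hT : ∀ u ∈ T, u ∘ₗ F ∈ T)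
    {u : Ω ⊗[E] V →ₗ[Ω] Ω ⊗[E] V'} (hu : u ∈ T) (x : R) : u ∘ₗ prj e x ∈ T := by
  have h1 (p : Polynomial Ω) : ∀ u ∈ T, u ∘ₗ aeval (R := Ω) (A := Module.End Ω (Ω ⊗[E] V)) F p ∈ T := by
    induction p using Polynomial.induction_on with
    | C c =>
      intro u hu
      have : u ∘ₗ aeval (R := Ω) (A := Module.End Ω (Ω ⊗[E] V)) F (C c) = c • u :=
        LinearMap.ext fun t => by simp
      rw [this]; exact T.smul_mem _ hu
    | add p q hp hq =>
      intro u hu
      rw [map_add, LinearMap.comp_add]; exact T.add_mem (hp u hu) (hq u hu)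
    | monomial n c h =>
      intro u hu
      rw [pow_succ, ← mul_assoc, map_mul, aeval_X, Module.End.mul_eq_comp, ← LinearMap.comp_assoc]
      exact hT _ (h u hu)
  have h2 : prj e x = aeval (R := Ω) (A := Module.End Ω (Ω ⊗[E] V)) F
      (Lagrange.basis Finset.univ ε x) := by
    refine e.ext fun y => ?_
    rw [Module.End.aeval_apply_of_mem_apply_eq_smul (he y)]
    by_cases h : x = y
    · subst h
      rw [Lagrange.eval_basis_self hε.injOn (Finset.mem_univ _)]
      simp [prj]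
    · rw [Lagrange.eval_basis_of_ne h (Finset.mem_univ _)]
      simp [prj, Ne.symm h]
  rw [h2]
  exact h1 _ u hu

lemma mat_ne_zero [Fintype R] [DecidableEq R] (F : V →ₗ[E] V) (ε : R → Ω) (c : R → R)
    (he : ∀ x, F.baseChange Ω (e x) = ε x • e x) (Q : E) (n : ℕ)
    (hrel : ∀ x y, (ε x * ε y) ^ n = algebraMap E Ω Q → y = c x)
    (hω : ((ExteriorAlgebra.map F).toLinearMap ^ n)
      (∑ j, ExteriorAlgebra.ι E (a j) * ExteriorAlgebra.ι E (b j)) =
      Q • ∑ j, ExteriorAlgebra.ι E (a j) * ExteriorAlgebra.ι E (b j))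
    (g : ℕ) (hg : Fintype.card R = 2 * g)
    (hne : (∑ j, ExteriorAlgebra.ι E (a j) * ExteriorAlgebra.ι E (b j)) ^ g ≠ 0) (x : R) :
    mat a b e x (c x) ≠ 0 := by
  intro h0
  set ω := ∑ j, ExteriorAlgebra.ι E (a j) * ExteriorAlgebra.ι E (b j) with hωdef
  have hprj (y : R) : prj e y ∘ₗ F.baseChange Ω = ε y • prj e y := by
    refine e.ext fun z => ?_
    by_cases h : z = y
    · subst h; simp [prj, he]
    · simp [prj, he, h]
  have hsc (s t : Ω) (y : R) : theta (s • prj e x + t • prj e y) ω =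
      (s * t * mat a b e x y) • (io E Ω V (e x) * io E Ω V (e y)) := by
    have e1 : s • prj e x = (s • LinearMap.id) ∘ₗ prj e x := LinearMap.ext fun z => by simp
    have e2 : t • prj e y = (t • LinearMap.id) ∘ₗ prj e y := LinearMap.ext fun z => by simp
    rw [hωdef, theta_add, e1, e2, theta_prj, theta_prj, pol_prj]
    simp only [zero_add, LinearMap.smul_apply, LinearMap.id_apply, map_smul, smul_mul_smul_comm,
      smul_smul]
    congr 1
    ring
  have hit (m : ℕ) (s t : Ω) (y : R) :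
      theta (s • prj e x + t • prj e y) (((ExteriorAlgebra.map F).toLinearMap ^ m) ω) =
        theta ((s * ε x ^ m) • prj e x + (t * ε y ^ m) • prj e y) ω := by
    induction m generalizing s t with
    | zero => simp
    | succ m ih =>
      rw [pow_succ', Module.End.mul_apply, AlgHom.toLinearMap_apply, theta_map,
        LinearMap.add_comp, LinearMap.smul_comp, LinearMap.smul_comp, hprj, hprj, smul_smul,
        smul_smul, ih, mul_assoc, mul_assoc, ← pow_succ', ← pow_succ']
  have hz (y : R) : mat a b e x y • (io E Ω V (e x) * io E Ω V (e y)) = 0 := by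
    by_cases hy : y = c x
    · rw [hy, h0, zero_smul]
    · have h1 := hit n 1 1 y
      rw [hω, map_smul, hsc, hsc, ← algebraMap_smul Ω Q, smul_smul, ← sub_eq_zero, ← sub_smul]
        at h1
      have h2 : algebraMap E Ω Q - (ε x * ε y) ^ n ≠ 0 := fun h =>
        hy (hrel x y (sub_eq_zero.1 h).symm)
      apply smul_right_injective _ h2
      simp only [smul_zero, smul_smul]
      rw [← h1]
      congr 1
      ring
  have hsum : ∑ y, prj e y = LinearMap.id := LinearMap.ext fun z => by simp [prj]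
  let P : Ω ⊗[E] V →ₗ[Ω] Ω ⊗[E] V := ∑ y ∈ Finset.univ.erase x, prj e y
  have hP : prj e x + P = LinearMap.id := by
    rw [← hsum, Finset.add_sum_erase _ _ (Finset.mem_univ x)]
  have hpol : pol a b (prj e x) P = 0 := by
    have h1 (s : Finset R) : pol a b (prj e x) (∑ y ∈ s, prj e y) = 0 := by
      induction s using Finset.induction_on with
      | empty => simp [pol]
      | insert y s hy ih =>
        have h2 := pol_prj a b e LinearMap.id LinearMap.id x y
        simp only [LinearMap.id_comp, LinearMap.id_apply, hz] at h2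
        have h3 : pol a b (prj e x) (prj e y + ∑ y ∈ s, prj e y) =
            pol a b (prj e x) (prj e y) + pol a b (prj e x) (∑ y ∈ s, prj e y) := by
          simp only [pol, ← Finset.sum_add_distrib, LinearMap.add_apply, map_add]
          refine Finset.sum_congr rfl fun j _ => ?_
          noncomm_ring
        rw [Finset.sum_insert hy, h3, h2, ih, add_zero]
    exact h1 _
  have h3 : (1 : Ω) ⊗ₜ[E] ω = theta P ω := by
    have h4 := theta_baseChange (Ω := Ω) (LinearMap.id : V →ₗ[E] V) ω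
    rw [LinearMap.baseChange_id, ← hP, hωdef, theta_add, hpol] at h4
    have h5 := theta_prj a b e LinearMap.id x
    rw [LinearMap.id_comp] at h5
    rw [h5, zero_add, add_zero, ← hωdef, ExteriorAlgebra.map_id] at h4
    exact h4.symm
  let f : {y : R // y ≠ x} → Ω ⊗[E] ExteriorAlgebra E V := fun y => io E Ω V (e y)
  have hPf (z : Ω ⊗[E] V) : io E Ω V (P z) ∈ Submodule.span Ω (Set.range f) := by
    simp only [P, LinearMap.sum_apply, map_sum, prj, LinearMap.smulRight_apply, map_smul]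
    exact Submodule.sum_mem _ fun y hy => Submodule.smul_mem _ _
      (Submodule.subset_span ⟨⟨y, Finset.ne_of_mem_erase hy⟩, rfl⟩)
  have h6 : theta P ω ∈ Submodule.span Ω (Set.range f) ^ 2 := by
    simp only [hωdef, map_sum, map_mul, theta_ι, pow_two]
    exact Submodule.sum_mem _ fun j _ => Submodule.mul_mem_mul (hPf _) (hPf _)
  have h7 := Submodule.pow_mem_pow _ h6 g
  rw [← pow_mul, span_pow_eq_bot f (fun _ _ => io_anti _ _) (fun _ => io_sq _) _ (by
    have : 0 < Fintype.card R := Fintype.card_pos_iff.2 ⟨x⟩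
    simp only [ne_eq, Fintype.card_subtype_compl, Fintype.card_unique]
    omega), ← h3, Algebra.TensorProduct.tmul_pow, one_pow, Submodule.mem_bot] at h7
  exact hne (Algebra.TensorProduct.includeRight_injective (R := E) (A := Ω)
    (algebraMap E Ω).injective (by simpa using h7))

theorem deg_two [Fintype R] [DecidableEq R] (F : V →ₗ[E] V) (F' : V' →ₗ[E] V') (ε : R → Ω)
    (hε : Function.Injective ε) (c : R → R) (q : E) (hq0 : q ≠ 0)
    (hq : ∀ x, ε x * ε (c x) = algebraMap E Ω q)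
    (he : ∀ x, F.baseChange Ω (e x) = ε x • e x) (hmat : ∀ x, mat a b e x (c x) ≠ 0)
    (W : Submodule E (ExteriorAlgebra E V')) (S : Set (V →ₗ[E] V'))
    (hadd : ∀ u ∈ S, ∀ v ∈ S, u + v ∈ S)
    (hS : ∀ u ∈ S, ExteriorAlgebra.map u
      (∑ j, ExteriorAlgebra.ι E (a j) * ExteriorAlgebra.ι E (b j)) ∈ W)
    (hSF : ∀ u ∈ S, ∃ t : E, t ≠ 0 ∧ t • (u ∘ₗ F) ∈ S) (hFF : ∀ u ∈ S, F' ∘ₗ u = u ∘ₗ F)
    (htop : ⊤ ≤ ⨆ u ∈ S, LinearMap.range u) :
    (⊤ ≤ Submodule.span Ω {v : Ω ⊗[E] V' | ∃ x, F'.baseChange Ω v = ε x • v}) ∧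
    ∀ δ ∈ ⋀[E]^2 V', ExteriorAlgebra.map F' δ = q • δ → δ ∈ W := by
  let T := Submodule.span Ω ((fun w : V →ₗ[E] V' => w.baseChange Ω) '' S)
  have hT : ∀ u ∈ T, u ∘ₗ F.baseChange Ω ∈ T := by
    intro u hu
    induction hu using Submodule.span_induction with
    | mem u hu =>
      obtain ⟨u, hu, rfl⟩ := hu
      obtain ⟨t, ht, h⟩ := hSF u hu
      have h1 : (t • (u ∘ₗ F)).baseChange Ω ∈ T := Submodule.subset_span ⟨_, h, rfl⟩
      rw [LinearMap.baseChange_smul, ← algebraMap_smul Ω t, LinearMap.baseChange_comp] at h1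
      exact (T.smul_mem_iff ((map_ne_zero (algebraMap E Ω)).2 ht)).1 h1
    | zero => simp
    | add u v _ _ hu hv => rw [LinearMap.add_comp]; exact T.add_mem hu hv
    | smul t u _ hu => rw [LinearMap.smul_comp]; exact T.smul_mem _ hu
  have hW (u : V →ₗ[E] V') (hu : u ∈ S) (v : V →ₗ[E] V') (hv : v ∈ S) (x : R) :
      io E Ω V' (u.baseChange Ω (e x)) * io E Ω V' (v.baseChange Ω (e (c x))) ∈
        W.baseChange Ω := by
    have h1 := pol_mem a b W S hadd hS
      (comp_prj_mem e _ ε hε he T hT (Submodule.subset_span ⟨u, hu, rfl⟩) x)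
      (comp_prj_mem e _ ε hε he T hT (Submodule.subset_span ⟨v, hv, rfl⟩) (c x))
    rw [pol_prj] at h1
    exact (Submodule.smul_mem_iff _ (hmat x)).1 h1
  let G : Set (Ω ⊗[E] V') := {v | ∃ u ∈ S, ∃ x, v = u.baseChange Ω (e x)}
  have hG : ⊤ ≤ Submodule.span Ω G := by
    rintro z -
    induction z using TensorProduct.induction_on with
    | zero => simp
    | add x y hx hy => exact Submodule.add_mem _ hx hy
    | tmul w z =>
      have h1 : (⨆ u ∈ S, LinearMap.range u) ≤ ((Submodule.span Ω G).restrictScalars E).comap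
          (TensorProduct.mk E Ω V' w) := by
        refine iSup₂_le fun u hu => ?_
        rintro _ ⟨y, rfl⟩
        change w ⊗ₜ u y ∈ Submodule.span Ω G
        rw [← LinearMap.baseChange_tmul, ← e.sum_repr (w ⊗ₜ y), map_sum]
        refine Submodule.sum_mem _ fun x _ => ?_
        rw [map_smul]
        exact Submodule.smul_mem _ _ (Submodule.subset_span ⟨u, hu, x, rfl⟩)
      exact h1 (htop (Submodule.mem_top (x := z)))
  have hGe (u : V →ₗ[E] V') (hu : u ∈ S) (x : R) :
      F'.baseChange Ω (u.baseChange Ω (e x)) = ε x • u.baseChange Ω (e x) := by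
    rw [← LinearMap.comp_apply, ← LinearMap.baseChange_comp, hFF u hu, LinearMap.baseChange_comp,
      LinearMap.comp_apply, he, map_smul]
  refine ⟨hG.trans (Submodule.span_mono ?_), fun δ hδ hFδ => ?_⟩
  · rintro _ ⟨u, hu, x, rfl⟩
    exact ⟨x, hGe u hu x⟩
  let Φ : Ω ⊗[E] ExteriorAlgebra E V' →ₐ[Ω] Ω ⊗[E] ExteriorAlgebra E V' :=
    Algebra.TensorProduct.map (AlgHom.id Ω Ω) (ExteriorAlgebra.map F')
  have hΦι (v : Ω ⊗[E] V') : Φ (io E Ω V' v) = io E Ω V' (F'.baseChange Ω v) := by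
    induction v using TensorProduct.induction_on with
    | zero => simp
    | tmul w a => simp [Φ]
    | add x y hx hy => simp only [map_add, hx, hy]
  let M : Set (Ω ⊗[E] ExteriorAlgebra E V') := {t | ∃ u ∈ S, ∃ v ∈ S, ∃ x y,
    t = io E Ω V' (u.baseChange Ω (e x)) * io E Ω V' (v.baseChange Ω (e y))}
  have hM (u : V →ₗ[E] V') (hu : u ∈ S) (v : V →ₗ[E] V') (hv : v ∈ S) (x y : R) :
      Φ.toLinearMap (io E Ω V' (u.baseChange Ω (e x)) * io E Ω V' (v.baseChange Ω (e y))) =
        (ε x * ε y) • (io E Ω V' (u.baseChange Ω (e x)) * io E Ω V' (v.baseChange Ω (e y))) := by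
    rw [AlgHom.toLinearMap_apply, map_mul, hΦι, hΦι, hGe u hu, hGe v hv, map_smul, map_smul,
      smul_mul_smul_comm]
  have h1 : (1 : Ω) ⊗ₜ[E] δ ∈ Submodule.span Ω M := by
    have h2 (z : V') : (1 : Ω) ⊗ₜ[E] ExteriorAlgebra.ι E z ∈
        Submodule.span Ω (io E Ω V' '' G) := by
      rw [← Submodule.map_span]
      exact ⟨1 ⊗ₜ z, hG Submodule.mem_top, by simp⟩
    have h3 : Submodule.span Ω (io E Ω V' '' G) * Submodule.span Ω (io E Ω V' '' G) ≤
        Submodule.span Ω M := by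
      rw [Submodule.span_mul_span]
      apply Submodule.span_mono
      rintro _ ⟨_, ⟨_, ⟨u, hu, x, rfl⟩, rfl⟩, _, ⟨_, ⟨v, hv, y, rfl⟩, rfl⟩, rfl⟩
      exact ⟨u, hu, v, hv, x, y, rfl⟩
    change δ ∈ LinearMap.range (ExteriorAlgebra.ι E) ^ 2 at hδ
    rw [pow_two] at hδ
    clear hFδ
    refine Submodule.mul_induction_on hδ ?_ fun x y hx hy => ?_
    · rintro _ ⟨z, rfl⟩ _ ⟨z', rfl⟩
      have := h3 (Submodule.mul_mem_mul (h2 z) (h2 z'))
      simpa using this
    · rw [TensorProduct.tmul_add]; exact Submodule.add_mem _ hx hy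
  have h4 := mem_span_eigen Φ.toLinearMap M (by
    rintro _ ⟨u, hu, v, hv, x, y, rfl⟩
    exact ⟨_, hM u hu v hv x y⟩) h1 (μ := algebraMap E Ω q) (by
      simp [Φ, hFδ])
  have h5 : (1 : Ω) ⊗ₜ[E] δ ∈ W.baseChange Ω := by
    refine (Submodule.span_le.2 ?_ : _ ≤ W.baseChange Ω) h4
    rintro _ ⟨⟨u, hu, v, hv, x, y, rfl⟩, h6⟩
    by_cases h0 : io E Ω V' (u.baseChange Ω (e x)) * io E Ω V' (v.baseChange Ω (e y)) = 0
    · rw [h0]; exact Submodule.zero_mem _
    · rw [hM u hu v hv] at h6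
      have h7 := smul_left_injective Ω h0 h6
      have h8 : ε x ≠ 0 := fun h => (map_ne_zero (algebraMap E Ω)).2 hq0 (by
        rw [← hq x, h, zero_mul])
      have h9 : y = c x := hε (mul_left_cancel₀ h8 (h7.trans (hq x).symm))
      rw [h9]
      exact hW u hu v hv x
  obtain ⟨φ, hφ⟩ : ∃ φ : Ω →ₗ[E] E, φ 1 ≠ 0 := by
    by_contra h
    push Not at h
    exact one_ne_zero ((Module.forall_dual_apply_eq_zero_iff E (1 : Ω)).1 h)
  have := contr_mem φ _ h5
  rw [contr_tmul] at this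
  exact (Submodule.smul_mem_iff _ hφ).1 this

end Main

end Pool.Agent.P.MP_7b53ad_ag.AV
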