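import Pool.Agent.P.MP_7b53ad_ag.Weil

/-! The criterion with one orbit of an `r`-group. -/

namespace Pool.Agent.P.MP_7b53ad_ag.AV

open Finset Polynomial Pool.Agent.P.MP_7b53ad_ag

theorem lattice_zero' {G R : Type*} [Group G] [Fintype R] [DecidableEq R] [MulAction G R]
    {r : ℕ} (hr : r.Prime) {c : R → R} (hc : ∀ a, c (c a) = a)
    (hcG : ∀ (σ : G) a, c (σ • a) = σ • c a) {n : R → ℤ} (hn : ∀ a, n (c a) = -n a)
    (P : Subgroup G) (hP : IsPGroup r P) (Φ : Finset R) (hΦ : ∀ a, a ∈ Φ ↔ c a ∉ Φ)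
    (htr : ∀ a ∈ Φ, ∀ b ∈ Φ, ∃ σ ∈ P, σ • a = b) (hsum : ¬ (r : ℤ) ∣ ∑ a ∈ Φ, n a)
    {u : R → ℤ} (hu : InL G c n u) : u = 0 := by
  by_contra h0
  have : Fact r.Prime := ⟨hr⟩
  obtain ⟨v, hv, a₁, ha₁⟩ := exists_not_dvd hr _ u le_rfl hu h0
  let _ := actLbar (r := r) (n := n) hcG P
  have hdvd : r ∣ Nat.card (Lbar G r c n) := by
    let w : Lbar G r c n := ⟨fun a => (v a : ZMod r), v, hv, rfl⟩
    have hw : w ≠ 0 := fun h => ha₁ ((ZMod.intCast_zmod_eq_zero_iff_dvd _ _).1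
      (congrFun (congrArg Subtype.val h) a₁))
    have : addOrderOf w = r := addOrderOf_eq_prime (by
      apply Subtype.ext; funext a; simp) hw
    have h := addOrderOf_dvd_natCard w
    rwa [this] at h
  have h0fix : (0 : Lbar G r c n) ∈ MulAction.fixedPoints P (Lbar G r c n) := fun _ => rfl
  obtain ⟨⟨_, x, hx, rfl⟩, hfix, hne⟩ :=
    hP.exists_fixed_point_of_prime_dvd_card_of_fixed_point _ hdvd h0fix
  have hinv : ∀ (σ : P) a, (x (σ • a) : ZMod r) = x a := fun σ a => by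
    have := congrFun (congrArg Subtype.val (hfix σ⁻¹)) a
    change (x ((((σ⁻¹ : P) : G))⁻¹ • a) : ZMod r) = x a at this
    simpa [Subgroup.smul_def] using this
  have hodd : ∀ a, (x (c a) : ZMod r) = -x a := fun a => by rw [hx.1]; simp
  obtain ⟨a₀, hΦ₀, ha₀⟩ : ∃ a ∈ Φ, (x a : ZMod r) ≠ 0 := by
    by_contra h
    push Not at h
    refine hne (Subtype.ext (funext fun a => ?_))
    by_cases ha : a ∈ Φ
    · exact (h a ha).symm
    · have h1 := h (c a) (by rw [hΦ, hc]; exact ha)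
      rw [hodd, neg_eq_zero] at h1
      exact h1.symm
  have hs := half_sum hc (f := fun a => x a * n a) (fun a => by rw [hx.1, hn]; ring) hΦ
  have h1 := hx.2 1
  simp only [one_smul] at h1
  rw [h1] at hs
  have h2 : ∑ a ∈ Φ, x a * n a = 0 := by omega
  have h3 : (x a₀ : ZMod r) * ((∑ a ∈ Φ, n a : ℤ) : ZMod r) = 0 := by
    have := congrArg (Int.cast : ℤ → ZMod r) h2
    push_cast at this ⊢
    rw [mul_sum, ← this]
    refine sum_congr rfl fun a ha => ?_
    obtain ⟨σ, hσ, rfl⟩ := htr a₀ hΦ₀ a ha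
    rw [← hinv ⟨σ, hσ⟩ a₀]
    rfl
  exact hsum ((ZMod.intCast_zmod_eq_zero_iff_dvd _ _).1 ((mul_eq_zero.1 h3).resolve_left ha₀))

variable {K : Type*} [Field K] [Algebra ℚ K]

theorem count_symm' [Fintype (K ≃ₐ[ℚ] K)] {m : ℚ[X]} [DecidableEq (m.rootSet K)] {q : ℕ}
    {L : Type*} [NormedField L] (j : K →+* L) (hq0 : (q : L) ≠ 0) (hq1 : ‖(q : L)‖ ≠ 1)
    (c : m.rootSet K → m.rootSet K) (hcc : ∀ a, c (c a) = a)
    (hc : ∀ a : m.rootSet K, (a : K) * c a = q) (t : (K ≃ₐ[ℚ] K) → ℝ) (n : m.rootSet K → ℤ)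
    (hn : ∀ a, (n a : ℝ) = ∑ τ, t τ * (1 - 2 * Real.logb ‖(q : L)‖ ‖j (τ a)‖))
    (hL : (∀ (σ : K ≃ₐ[ℚ] K) a, c (σ • a) = σ • c a) → (∀ a, n (c a) = -n a) →
      ∀ u, InL (K ≃ₐ[ℚ] K) c n u → u = 0)
    (i e : ℕ) (he : 0 < e) (l : List (m.rootSet K)) (hl : l.length = 2 * i)
    (hrel : (l.map Subtype.val).prod ^ e = (q : K) ^ (i * e)) (a : m.rootSet K) :
    l.count a = l.count (c a) := by
  have hb0 : 0 < ‖(q : L)‖ := norm_pos_iff.2 hq0
  have hne (a : m.rootSet K) : j a ≠ 0 := by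
    intro h
    apply hq0
    rw [← map_natCast j, ← hc a, map_mul, h, zero_mul]
  let v : m.rootSet K → ℝ := fun a => 1 - 2 * Real.logb ‖(q : L)‖ ‖j a‖
  have hn' (a : m.rootSet K) : (n a : ℝ) = ∑ τ, t τ * v (τ • a) := hn a
  have hoddv (a : m.rootSet K) : v (c a) = -v a := by
    have h1 : Real.logb ‖(q : L)‖ ‖j a‖ + Real.logb ‖(q : L)‖ ‖j (c a)‖ = 1 := by
      rw [← Real.logb_mul (norm_ne_zero_iff.2 (hne a)) (norm_ne_zero_iff.2 (hne _)), ← norm_mul,
        ← map_mul, hc, map_natCast, Real.logb_self_eq_one_iff]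
      exact ⟨hb0.ne', hq1, by linarith⟩
    simp only [v]
    linear_combination (-2 : ℝ) * h1
  have hcG (σ : K ≃ₐ[ℚ] K) (a : m.rootSet K) : c (σ • a) = σ • c a := by
    apply Subtype.ext
    have h0 : ((σ • a : m.rootSet K) : K) ≠ 0 := fun h => hne _ (by rw [h, map_zero])
    apply mul_left_cancel₀ h0
    rw [hc, rootSet.coe_smul, rootSet.coe_smul, AlgEquiv.smul_def, AlgEquiv.smul_def, ← map_mul,
      hc, map_natCast]
  have hodd (a : m.rootSet K) : n (c a) = -n a := by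
    have : (n (c a) : ℝ) = -n a := by
      rw [hn', hn', ← sum_neg_distrib]
      refine sum_congr rfl fun τ _ => ?_
      rw [← hcG, hoddv]
      ring
    exact_mod_cast this
  have hsumv (σ : K ≃ₐ[ℚ] K) : ∑ b, (l.count b : ℝ) * v (σ • b) = 0 := by
    have h1 : (l.map fun b => j ((σ • b : m.rootSet K) : K)).prod ^ e = (q : L) ^ (i * e) := by
      have := congrArg (fun x => j (σ x)) hrel
      simp only [map_pow, map_natCast, map_list_prod, List.map_map] at this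
      rw [← this]
      rfl
    have h2 := (logb_norm_prod ‖(q : L)‖ (fun b => j ((σ • b : m.rootSet K) : K))
      (fun b => hne _) l).1
    have h3 := congrArg (fun x => Real.logb ‖(q : L)‖ ‖x‖) h1
    simp only [norm_pow, Real.logb_pow] at h3
    rw [h2, (Real.logb_self_eq_one_iff.2 ⟨hb0.ne', hq1, by linarith⟩), ← sum_count] at h3
    have h4 : ∑ b, (l.count b : ℝ) * Real.logb ‖(q : L)‖ ‖j ((σ • b : m.rootSet K) : K)‖ = i := by
      have he' : (e : ℝ) ≠ 0 := by exact_mod_cast he.ne'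
      apply mul_left_cancel₀ he'
      rw [h3]; push_cast; ring
    have h5 : ∑ b, (l.count b : ℝ) * 1 = 2 * i := by
      rw [sum_count]; simp [hl]
    have : ∀ b, (l.count b : ℝ) * v (σ • b) = ((l.count b : ℝ) * 1) -
        2 * ((l.count b : ℝ) * Real.logb ‖(q : L)‖ ‖j ((σ • b : m.rootSet K) : K)‖) :=
      fun b => by simp only [v]; ring
    simp only [this, sum_sub_distrib, ← mul_sum, h4, h5]
    ring
  have hsum (σ : K ≃ₐ[ℚ] K) : ∑ b, (l.count b : ℤ) * n (σ • b) = 0 := by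
    have h6 : ∑ b, (l.count b : ℝ) * (n (σ • b) : ℝ) = 0 := by
      simp only [hn', mul_sum, ← mul_smul]
      rw [sum_comm]
      refine sum_eq_zero fun τ _ => ?_
      have := hsumv (τ * σ)
      simp only [mul_left_comm _ (t τ), ← mul_sum, this, mul_zero]
    exact_mod_cast h6
  have hu := hL hcG hodd (fun b => (l.count b : ℤ) - l.count (c b))
    ⟨fun b => by simp only [hcc]; ring, fun σ => by
      have h7 : ∑ b, (l.count (c b) : ℤ) * n (σ • b) = -∑ b, (l.count b : ℤ) * n (σ • b) := by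
        rw [← Equiv.sum_comp (Function.Involutive.toPerm c hcc), ← sum_neg_distrib]
        refine sum_congr rfl fun b _ => ?_
        simp only [Function.Involutive.coe_toPerm, hcc]
        rw [← hcG, hodd]; ring
      simp only [sub_mul, sum_sub_distrib, h7, hsum]; ring⟩
  have := congrFun hu a
  simp only [Pi.zero_apply] at this
  omega

end Pool.Agent.P.MP_7b53ad_ag.AV
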