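import Mathlib

/-!
Geometric points, Tate module, first l-adic cohomology, Tate classes and divisor classes of a
group scheme over a field `k`.
-/

namespace Pool.Agent.P.MP_7b53ad_ag.AV

open CategoryTheory AlgebraicGeometry
open scoped MonObj

variable {k : Type} [Field k]

/-- The spectrum of the algebraic closure of `k`, as a scheme over `k`. -/
noncomputable abbrev pt (k : Type) [Field k] : Over (Spec (CommRingCat.of k)) :=
  Over.mk (Spec.map (CommRingCat.ofHom (algebraMap k (AlgebraicClosure k))))

/-- The points of `A` with values in the algebraic closure of `k`. -/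
def Pts (A : Over (Spec (CommRingCat.of k))) : Type := pt k ⟶ A

/-- The group law on the points of a group scheme. -/
noncomputable instance Pts.monoid (A : Over (Spec (CommRingCat.of k))) [GrpObj A] :
    Monoid (Pts A) :=
  Hom.monoid (X := pt k) (M := A)

/-- The morphism of schemes underlying a point. -/
noncomputable def Pts.mor {A : Over (Spec (CommRingCat.of k))} (z : Pts A) :
    Spec (CommRingCat.of (AlgebraicClosure k)) ⟶ A.left :=
  Over.Hom.left z

/-- The map on points of a homomorphism of group schemes. -/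
noncomputable def ptsHom {A B : Over (Spec (CommRingCat.of k))} [GrpObj A] [GrpObj B]
    (u : B ⟶ A) [IsMonHom u] : Pts B →* Pts A :=
  IsMonHom.monoidHom u (pt k)

/-- The automorphism of `pt k` given by an element of the absolute Galois group. -/
noncomputable def gal (σ : AlgebraicClosure k ≃ₐ[k] AlgebraicClosure k) : pt k ⟶ pt k :=
  Over.homMk (Spec.map (CommRingCat.ofHom (σ : AlgebraicClosure k →+* AlgebraicClosure k))) (by
    change Spec.map _ ≫ Spec.map _ = Spec.map _
    rw [← Spec.map_comp, ← CommRingCat.ofHom_comp]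
    congr 2
    ext a
    simp)

section Values

variable {R : CommRingCat.{0}} {X : Scheme.{0}}

/-- The point `z` lies in the open subscheme `W`. -/
def InOpen (z : Spec R ⟶ X) (W : X.Opens) : Prop := ⊤ ≤ z ⁻¹ᵁ W

open Classical in
/-- The value at `z` of a section `f` of the structure sheaf over `W` (zero off `W`). -/
noncomputable def ev (z : Spec R ⟶ X) (W : X.Opens) (f : Γ(X, W)) : R :=
  if h : ⊤ ≤ z ⁻¹ᵁ W then (Scheme.ΓSpecIso R).hom (z.appLE W ⊤ h f) else 0

/-- The value at `z` of a combination of sections with coefficients in `R`. -/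
noncomputable def evc (z : Spec R ⟶ X) (W : X.Opens) (F : Γ(X, W) →₀ R) : R :=
  F.sum fun f c => c * ev z W f

end Values

section Linear

variable {E V V' : Type} [Field E] [AddCommGroup V] [Module E V] [AddCommGroup V'] [Module E V']

/-- `θ` has degree `d`. -/
def InDeg (d : ℕ) (θ : ExteriorAlgebra E V) : Prop := θ ∈ ⋀[E]^d V

/-- The map induced by `F` multiplies `θ` by `c`. -/
def Scales (F : V →ₗ[E] V) (c : E) (θ : ExteriorAlgebra E V) : Prop :=
  ExteriorAlgebra.map F θ = c • θ

/-- The sum of the products `a j ∧ b j`. -/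
noncomputable def wedge {N : ℕ} (a b : Fin N → V) : ExteriorAlgebra E V :=
  ∑ j, ExteriorAlgebra.ι E (a j) * ExteriorAlgebra.ι E (b j)

/-- The `g`-th power of `ω` is not zero. -/
def PowNe (ω : ExteriorAlgebra E V) (g : ℕ) : Prop := ω ^ g ≠ 0

/-- `θ` is a linear combination of products of `i` elements of `S`. -/
def InProd (S : Set (ExteriorAlgebra E V)) (i : ℕ) (θ : ExteriorAlgebra E V) : Prop :=
  θ ∈ Submodule.span E S ^ i

/-- The images of the maps `u j` span. -/
def Spans {J : Type} (u : J → V →ₗ[E] V') : Prop := ⨆ j, LinearMap.range (u j) = ⊤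

/-- `V` has finite dimension and `F` has characteristic polynomial `m`. -/
def HasChar (F : V →ₗ[E] V) (m : Polynomial E) : Prop :=
  ∃ _ : Module.Finite E V, F.charpoly = m

end Linear

section Tate

variable (G : Type) [Monoid G] (l : ℕ)

/-- The `l`-adic Tate module: compatible systems of `l ^ m`-torsion points. -/
structure TateMod : Type where
  val : ℕ → G
  zero : val 0 = 1
  succ : ∀ m, val (m + 1) ^ l = val m

variable [Fact l.Prime]

/-- The bounded additive maps from the Tate module to `Q_l`. -/
noncomputable def H1sub : Submodule ℚ_[l] (TateMod G l → ℚ_[l]) where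
  carrier := {f | (∀ x y z : TateMod G l, (∀ m, z.val m = x.val m * y.val m) → f z = f x + f y) ∧
    ∃ C : ℝ, ∀ x, ‖f x‖ ≤ C}
  add_mem' := by
    rintro f g ⟨hf, C, hC⟩ ⟨hg, D, hD⟩
    refine ⟨fun x y z h => ?_, C + D, fun x => (norm_add_le _ _).trans (add_le_add (hC x) (hD x))⟩
    simp only [Pi.add_apply, hf x y z h, hg x y z h]
    ring
  zero_mem' := ⟨fun _ _ _ _ => by simp, 0, fun _ => by simp⟩
  smul_mem' := by
    rintro c f ⟨hf, C, hC⟩
    refine ⟨fun x y z h => ?_, ‖c‖ * C, fun x => ?_⟩
    · simp only [Pi.smul_apply, hf x y z h, smul_add]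
    · rw [Pi.smul_apply, norm_smul]
      exact mul_le_mul_of_nonneg_left (hC x) (norm_nonneg _)

/-- `H^1`, the space of bounded additive maps from the Tate module to `Q_l`. -/
def H1 : Type := H1sub G l

noncomputable instance H1.addCommGroup : AddCommGroup (H1 G l) :=
  Submodule.addCommGroup (H1sub G l)

noncomputable instance H1.module : Module ℚ_[l] (H1 G l) := Submodule.module (H1sub G l)

variable {G} {G' : Type} [Monoid G']

/-- The function underlying an element of `H^1`. -/
def H1.fn {l : ℕ} [Fact l.Prime] (f : H1 G l) : TateMod G l → ℚ_[l] := Subtype.val f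

/-- The map of Tate modules induced by a homomorphism. -/
def tmap (u : G' →* G) (x : TateMod G' l) : TateMod G l :=
  ⟨fun m => u (x.val m), by rw [x.zero, map_one], fun m => by rw [← map_pow, x.succ]⟩

lemma comp_tmap_mem (u : G' →* G) (f : H1 G l) : f.fn ∘ tmap l u ∈ H1sub G' l :=
  ⟨fun x y z h => f.2.1 _ _ _ fun m => by simp only [tmap, h m, map_mul],
    f.2.2.imp fun _ hC x => hC _⟩

/-- The pull-back of one class along a homomorphism. -/
def pullFun (u : G' →* G) (f : H1 G l) : H1 G' l := ⟨f.fn ∘ tmap l u, comp_tmap_mem l u f⟩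

/-- The pull-back on `H^1` along a homomorphism. -/
noncomputable def pull (u : G' →* G) : H1 G l →ₗ[ℚ_[l]] H1 G' l where
  toFun := pullFun l u
  map_add' _ _ := rfl
  map_smul' _ _ := rfl

end Tate

section Functions

variable {A : Over (Spec (CommRingCat.of k))}

/-- `U` is Zariski open in the variety of geometric points. -/
def IsZOpen (U : Set (Pts A)) : Prop :=
  ∀ z ∈ U, ∃ (W : A.left.Opens) (G : Γ(A.left, W) →₀ CommRingCat.of (AlgebraicClosure k)),
    InOpen z.mor W ∧ evc z.mor W G ≠ 0 ∧
      ∀ y : Pts A, InOpen y.mor W → evc y.mor W G ≠ 0 → y ∈ U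

/-- `φ` is a regular function near `z`: a quotient `F / G` where `G` does not vanish. -/
def RegAt (φ : Pts A → AlgebraicClosure k) (z : Pts A) : Prop :=
  ∃ (W : A.left.Opens) (F G : Γ(A.left, W) →₀ CommRingCat.of (AlgebraicClosure k)),
    InOpen z.mor W ∧ evc z.mor W G ≠ 0 ∧ ∀ y : Pts A, InOpen y.mor W → evc y.mor W G ≠ 0 →
      φ y * evc y.mor W G = evc y.mor W F

end Functions

/-- A line bundle on `A` over the algebraic closure, given by an open cover and a cocycle of
invertible regular transition functions. -/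
structure LineBundle (A : Over (Spec (CommRingCat.of k))) where
  I : Type
  U : I → Set (Pts A)
  isOpen : ∀ i, IsZOpen (U i)
  cover : ∀ z, ∃ i, z ∈ U i
  g : I → I → Pts A → AlgebraicClosure k
  unit : ∀ i j z, z ∈ U i → z ∈ U j → RegAt (g i j) z ∧ g i j z ≠ 0
  cocycle : ∀ i j m z, z ∈ U i → z ∈ U j → z ∈ U m → g i j z * g j m z = g i m z

section Group

variable (A : Over (Spec (CommRingCat.of k))) [GrpObj A] (l : ℕ)

/-- `c` is the Weil pairing of the `n`-torsion points `x`, `y` for the line bundle `L`: there is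
an isomorphism `s` between the pull-backs of `L` along `z ↦ z ^ n * x` and `z ↦ z ^ n`, and
translation by `y` multiplies `s` by `c`. -/
def IsWeil {A : Over (Spec (CommRingCat.of k))} [GrpObj A] (L : LineBundle A) (n : ℕ)
    (x y : Pts A) (c : AlgebraicClosure k) : Prop :=
  ∃ s : L.I → L.I → Pts A → AlgebraicClosure k,
    (∀ i j z, z ^ n ∈ L.U i → z ^ n * x ∈ L.U j →
      RegAt (s i j) z ∧ s i j z ≠ 0 ∧ s i j (z * y) = c * s i j z) ∧
    ∀ i j i' j' z, z ^ n ∈ L.U i → z ^ n * x ∈ L.U j → z ^ n ∈ L.U i' → z ^ n * x ∈ L.U j' →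
      s i j z * L.g j j' (z ^ n * x) = L.g i i' (z ^ n) * s i' j' z

variable [Fact l.Prime]

/-- The action of an element of the Galois group on the points of `A`. -/
noncomputable def galPts (σ : AlgebraicClosure k ≃ₐ[k] AlgebraicClosure k) : Pts A →* Pts A where
  toFun z := gal σ ≫ z
  map_one' := MonObj.comp_one _
  map_mul' := MonObj.comp_mul _

/-- The `l`-adic cyclotomic character. -/
noncomputable def chi (σ : AlgebraicClosure k ≃ₐ[k] AlgebraicClosure k) : ℚ_[l] :=
  ((cyclotomicCharacter (AlgebraicClosure k) l σ.toRingEquiv : ℤ_[l]ˣ) : ℤ_[l])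

/-- Tate classes in `H^{2i}(A, Q_l(i))`, the `2i`-th exterior power of `H^1` twisted by the
`i`-th power of the cyclotomic character: classes fixed by an open subgroup. -/
def IsTate (i : ℕ) (θ : ExteriorAlgebra ℚ_[l] (H1 (Pts A) l)) : Prop :=
  InDeg (2 * i) θ ∧
    ∃ U : OpenSubgroup (AlgebraicClosure k ≃ₐ[k] AlgebraicClosure k), ∀ σ ∈ U,
      Scales (pull l (galPts A σ)) (chi l σ ^ i) θ

/-- `ω` is the class of a line bundle: the alternating form it defines on the Tate module is the
Weil pairing of a line bundle, written in the basis `ζ` of `Z_l(1)`. -/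
def IsDivClass (ζ : ℕ → AlgebraicClosure k) (ω : ExteriorAlgebra ℚ_[l] (H1 (Pts A) l)) : Prop :=
  ∃ (L : LineBundle A) (N : ℕ) (a b : Fin N → H1 (Pts A) l),
    ω = wedge a b ∧
    ∀ x y : TateMod (Pts A) l, ∃ w : ℤ_[l],
      (w : ℚ_[l]) = ∑ j, ((a j).fn x * (b j).fn y - (a j).fn y * (b j).fn x) ∧
      ∀ m, IsWeil L (l ^ m) (x.val m) (y.val m) (ζ m ^ (PadicInt.toZModPow m w).val)

end Group

end Pool.Agent.P.MP_7b53ad_ag.AV
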