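import Pool.Agent.P.MP_7b53ad_ag.AV.Geo

/-! The Frobenius endomorphism of a scheme over a finite field. -/

namespace Pool.Agent.P.MP_7b53ad_ag.AV

open CategoryTheory AlgebraicGeometry Opposite TopologicalSpace
open scoped MonObj

variable {k : Type} [Field k] [Fintype k]

/-- The map `x ↦ x ^ q` on a ring that receives the field with `q` elements. -/
noncomputable def powHom {R : Type} [CommRing R] (f : k →+* R) : R →+* R :=
  letI := f.toAlgebra
  (FiniteField.frobeniusAlgHom k R : R →+* R)

lemma powHom_apply {R : Type} [CommRing R] (f : k →+* R) (x : R) :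
    powHom f x = x ^ Fintype.card k := rfl

/-- The structure map from `k` to the sections over `U`. -/
noncomputable def toSec (A : Over (Spec (CommRingCat.of k))) (U : A.left.Opens) :
    k →+* Γ(A.left, U) :=
  ((Scheme.ΓSpecIso (CommRingCat.of k)).inv ≫ A.hom.appLE ⊤ U le_top).hom

/-- The Frobenius on presheafed spaces. -/
noncomputable def frobPsh (A : Over (Spec (CommRingCat.of k))) :
    A.left.toPresheafedSpace.Hom A.left.toPresheafedSpace where
  base := 𝟙 _
  c :=
    { app := fun U => CommRingCat.ofHom (powHom (toSec A U.unop))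
      naturality := fun U V i => by
        ext x
        exact (map_pow (A.left.presheaf.map i).hom x _).symm }

/-- The Frobenius on schemes. -/
noncomputable def frobSch (A : Over (Spec (CommRingCat.of k))) : A.left ⟶ A.left :=
  ⟨frobPsh A, fun x => ⟨fun t ht => by
    obtain ⟨U, hU, s, rfl⟩ := TopCat.Presheaf.exists_germ_eq A.left.presheaf (x := x) t
    have h := PresheafedSpace.stalkMap_germ_apply (frobPsh A) U x hU s
    erw [h] at ht
    have h2 : IsUnit ((A.left.presheaf.germ U x hU) s ^ Fintype.card k) := by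
      rw [← map_pow]
      exact ht
    exact (isUnit_pow_iff Fintype.card_ne_zero).1 h2⟩⟩

lemma frobSch_app (A : Over (Spec (CommRingCat.of k))) (U : A.left.Opens) (s : Γ(A.left, U)) :
    (frobSch A).app U s = s ^ Fintype.card k := rfl

lemma frobSch_nat {A B : Over (Spec (CommRingCat.of k))} (f : A.left ⟶ B.left) :
    f ≫ frobSch B = frobSch A ≫ f := by
  refine Scheme.Hom.ext rfl fun U => ?_
  have h : ∀ e, A.left.presheaf.map (eqToHom (X := f ⁻¹ᵁ U) (Y := f ⁻¹ᵁ U) e).op = 𝟙 _ := by
    intro e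
    simp
  erw [h, Category.comp_id]
  ext s
  exact map_pow (f.app U).hom s _

lemma frobSch_base : frobSch (Over.mk (𝟙 (Spec (CommRingCat.of k)))) = 𝟙 _ := by
  refine ext_of_isAffine (X := Spec (CommRingCat.of k)) (Y := Spec (CommRingCat.of k)) ?_
  ext s
  obtain ⟨a, rfl⟩ := (Scheme.ΓSpecIso (CommRingCat.of k)).symm.commRingCatIsoToRingEquiv.surjective s
  refine (frobSch_app (Over.mk (𝟙 (Spec (CommRingCat.of k)))) ⊤ _).trans ?_
  erw [← map_pow, FiniteField.pow_card]
  rfl

/-- The Frobenius as a morphism over `k`. -/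
noncomputable def frob (A : Over (Spec (CommRingCat.of k))) : A ⟶ A :=
  Over.homMk (frobSch A) (by
    have h := frobSch_nat (A := A) (B := Over.mk (𝟙 (Spec (CommRingCat.of k)))) A.hom
    rw [frobSch_base] at h
    exact h.symm.trans (Category.comp_id _))

lemma frobSch_pt (σ : AlgebraicClosure k ≃ₐ[k] AlgebraicClosure k)
    (hσ : ∀ x, σ x = x ^ Fintype.card k) : frobSch (pt k) = (gal σ).left := by
  refine ext_of_isAffine (X := Spec (CommRingCat.of (AlgebraicClosure k)))
    (Y := Spec (CommRingCat.of (AlgebraicClosure k))) ?_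
  ext s
  obtain ⟨a, rfl⟩ := (Scheme.ΓSpecIso
    (CommRingCat.of (AlgebraicClosure k))).symm.commRingCatIsoToRingEquiv.surjective s
  refine (frobSch_app (pt k) ⊤ _).trans ?_
  erw [← map_pow, ← hσ]
  exact congrArg (fun t => t.hom a) (Scheme.ΓSpecIso_inv_naturality
    (CommRingCat.ofHom (σ : AlgebraicClosure k →+* AlgebraicClosure k)))

lemma comp_frob (σ : AlgebraicClosure k ≃ₐ[k] AlgebraicClosure k)
    (hσ : ∀ x, σ x = x ^ Fintype.card k) {A : Over (Spec (CommRingCat.of k))} (z : pt k ⟶ A) :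
    z ≫ frob A = gal σ ≫ z := by
  ext1
  have h := frobSch_nat (A := pt k) (B := A) z.left
  rw [frobSch_pt σ hσ] at h
  exact h

lemma chi_frob (l : ℕ) [Fact l.Prime] (hl : (l : k) ≠ 0)
    (σ : AlgebraicClosure k ≃ₐ[k] AlgebraicClosure k)
    (hσ : ∀ x, σ x = x ^ Fintype.card k) : chi l σ = Fintype.card k := by
  have hl' : NeZero (l : AlgebraicClosure k) := ⟨by
    rw [← map_natCast (algebraMap k (AlgebraicClosure k))]
    exact (map_ne_zero _).2 hl⟩
  have h1 : ((cyclotomicCharacter (AlgebraicClosure k) l σ.toRingEquiv : ℤ_[l]ˣ) : ℤ_[l]) =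
      Fintype.card k := by
    refine PadicInt.ext_of_toZModPow.mp fun n => ?_
    obtain ⟨ζ, hζ⟩ := HasEnoughRootsOfUnity.exists_primitiveRoot (AlgebraicClosure k) (l ^ n)
    have h2 := cyclotomicCharacter.spec l σ.toRingEquiv ζ hζ.pow_eq_one
    have h3 : σ.toRingEquiv ζ = ζ ^ Fintype.card k := hσ ζ
    rw [h3] at h2
    have h4 := (hζ.isOfFinOrder (NeZero.ne _)).pow_eq_pow_iff_modEq.1 h2
    rw [← hζ.eq_orderOf] at h4
    rw [map_natCast, (ZMod.natCast_eq_natCast_iff _ _ _).2 h4, ZMod.natCast_zmod_val]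
  unfold chi
  rw [h1]
  simp

end Pool.Agent.P.MP_7b53ad_ag.AV
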