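import Pool.Agent.P.MP_7b53ad_ag.AV.Defs

/-! Pull-back of line bundles and of their Weil forms along morphisms. -/

namespace Pool.Agent.P.MP_7b53ad_ag.AV

open CategoryTheory AlgebraicGeometry
open scoped MonObj

variable {k : Type} [Field k] {A B : Over (Spec (CommRingCat.of k))}

/-- The map on points of a morphism. -/
noncomputable def Pts.map (u : B ⟶ A) (z : Pts B) : Pts A := CategoryStruct.comp (X := pt k) z u

lemma inOpen_comp (u : B ⟶ A) (z : Pts B) (W : A.left.Opens) :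
    InOpen (Pts.map u z).mor W ↔ InOpen z.mor (u.left ⁻¹ᵁ W) := Iff.rfl

lemma ev_comp (u : B ⟶ A) (z : Pts B) (W : A.left.Opens) (f : Γ(A.left, W)) :
    ev (Pts.map u z).mor W f = ev z.mor (u.left ⁻¹ᵁ W) (u.left.app W f) := rfl

lemma evc_comp (u : B ⟶ A) (z : Pts B) (W : A.left.Opens)
    (F : Γ(A.left, W) →₀ CommRingCat.of (AlgebraicClosure k)) :
    evc (Pts.map u z).mor W F = evc z.mor (u.left ⁻¹ᵁ W) (F.mapDomain (u.left.app W)) := by
  unfold evc
  rw [Finsupp.sum_mapDomain_index (by simp) (fun _ _ _ => add_mul _ _ _)]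
  simp only [ev_comp]

lemma IsZOpen.comp {U : Set (Pts A)} (hU : IsZOpen U) (u : B ⟶ A) :
    IsZOpen {z : Pts B | Pts.map u z ∈ U} := by
  intro z hz
  obtain ⟨W, G, h1, h2, h3⟩ := hU _ hz
  refine ⟨u.left ⁻¹ᵁ W, G.mapDomain (u.left.app W), (inOpen_comp u z W).1 h1,
    by rwa [← evc_comp], fun y hy hy' => h3 _ ((inOpen_comp u y W).2 hy) (by rwa [evc_comp])⟩

lemma RegAt.comp {φ : Pts A → AlgebraicClosure k} (u : B ⟶ A) {z : Pts B}
    (h : RegAt φ (Pts.map u z)) : RegAt (fun y => φ (Pts.map u y)) z := by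
  obtain ⟨W, F, G, h1, h2, h3⟩ := h
  refine ⟨u.left ⁻¹ᵁ W, F.mapDomain (u.left.app W), G.mapDomain (u.left.app W),
    (inOpen_comp u z W).1 h1, by rwa [← evc_comp], fun y hy hy' => ?_⟩
  rw [← evc_comp, ← evc_comp]
  exact h3 _ ((inOpen_comp u y W).2 hy) (by rwa [evc_comp])

/-- Pull-back of a line bundle. -/
noncomputable def LineBundle.comap (L : LineBundle A) (u : B ⟶ A) : LineBundle B where
  I := L.I
  U i := {z | Pts.map u z ∈ L.U i}
  isOpen i := (L.isOpen i).comp u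
  cover z := L.cover (Pts.map u z)
  g i j z := L.g i j (Pts.map u z)
  unit i j _ hi hj := ⟨(L.unit i j _ hi hj).1.comp u, (L.unit i j _ hi hj).2⟩
  cocycle i j m _ hi hj hm := L.cocycle i j m _ hi hj hm

variable [GrpObj A] [GrpObj B]

lemma IsWeil.comap {L : LineBundle A} (u : B ⟶ A) (φ : Pts B →* Pts A) (hφ : ∀ z, φ z = Pts.map u z)
    {n : ℕ} {x y : Pts B} {c : AlgebraicClosure k} (h : IsWeil L n (φ x) (φ y) c) :
    IsWeil (L.comap u) n x y c := by
  obtain ⟨s, h1, h2⟩ := h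
  have e1 (z : Pts B) : Pts.map u (z ^ n) = (Pts.map u z) ^ n := by rw [← hφ, ← hφ, map_pow]
  have e2 (z : Pts B) : Pts.map u (z ^ n * x) = (Pts.map u z) ^ n * φ x := by
    rw [← hφ, ← hφ, map_mul, map_pow]
  have e3 (z : Pts B) : Pts.map u (z * y) = (Pts.map u z) * φ y := by rw [← hφ, ← hφ, map_mul]
  refine ⟨fun i j z => s i j (Pts.map u z), fun i j z hi hj => ?_, fun i j i' j' z hi hj hi' hj' => ?_⟩
  · have hi' : (Pts.map u z) ^ n ∈ L.U i := by rw [← e1]; exact hi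
    have hj' : (Pts.map u z) ^ n * φ x ∈ L.U j := by rw [← e2]; exact hj
    obtain ⟨a, b, c⟩ := h1 i j _ hi' hj'
    exact ⟨a.comp u, b, by simp only [e3, c]⟩
  · have := h2 i j i' j' (Pts.map u z) (by rw [← e1]; exact hi) (by rw [← e2]; exact hj)
      (by rw [← e1]; exact hi') (by rw [← e2]; exact hj')
    simp only [LineBundle.comap, e1, e2]
    exact this

variable {l : ℕ} [Fact l.Prime]

lemma IsDivClass.comap {ζ : ℕ → AlgebraicClosure k} {ω : ExteriorAlgebra ℚ_[l] (H1 (Pts A) l)}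
    (h : IsDivClass A l ζ ω) (u : B ⟶ A) (φ : Pts B →* Pts A) (hφ : ∀ z, φ z = Pts.map u z) :
    IsDivClass B l ζ (ExteriorAlgebra.map (pull l φ) ω) := by
  obtain ⟨L, N, a, b, rfl, h2⟩ := h
  refine ⟨L.comap u, N, fun j => pull l φ (a j), fun j => pull l φ (b j),
    by simp [wedge], fun x y => ?_⟩
  obtain ⟨w, hw, hw'⟩ := h2 (tmap l φ x) (tmap l φ y)
  exact ⟨w, hw, fun m => (hw' m).comap u φ hφ⟩

lemma pull_comp {C : Over (Spec (CommRingCat.of k))} [GrpObj C] (φ : Pts B →* Pts A)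
    (ψ : Pts C →* Pts B) : pull l (φ.comp ψ) = pull l ψ ∘ₗ pull l φ := rfl

lemma pull_add (φ ψ χ : Pts B →* Pts A) (h : ∀ z, χ z = φ z * ψ z) :
    pull l χ = pull l φ + pull l ψ := by
  refine LinearMap.ext fun f => Subtype.ext (funext fun x => ?_)
  exact f.2.1 (tmap l φ x) (tmap l ψ x) (tmap l χ x) fun m => h _

lemma gal_mul (σ τ : AlgebraicClosure k ≃ₐ[k] AlgebraicClosure k) :
    gal (σ * τ) = gal σ ≫ gal τ := by
  ext1
  change Spec.map _ = Spec.map _ ≫ Spec.map _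
  rw [← Spec.map_comp, ← CommRingCat.ofHom_comp]
  rfl

lemma gal_one : gal (1 : AlgebraicClosure k ≃ₐ[k] AlgebraicClosure k) = 𝟙 _ := by
  ext1
  change Spec.map _ = 𝟙 _
  rw [← Spec.map_id]
  rfl

lemma pull_gal_pow (σ : AlgebraicClosure k ≃ₐ[k] AlgebraicClosure k) (n : ℕ) :
    pull l (galPts A (σ ^ n)) = pull l (galPts A σ) ^ n := by
  induction n with
  | zero =>
    have : galPts A (σ ^ 0) = MonoidHom.id _ := MonoidHom.ext fun z => by
      change gal (σ ^ 0) ≫ z = z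
      rw [pow_zero, gal_one, Category.id_comp]
    rw [this]
    rfl
  | succ n ih =>
    rw [pow_succ' (pull l (galPts A σ)), ← ih, Module.End.mul_eq_comp, ← pull_comp]
    congr 1
    refine MonoidHom.ext fun z => ?_
    change gal (σ ^ (n + 1)) ≫ z = gal (σ ^ n) ≫ gal σ ≫ z
    rw [pow_succ, gal_mul, Category.assoc]

lemma chi_pow (σ : AlgebraicClosure k ≃ₐ[k] AlgebraicClosure k) (n : ℕ) :
    chi l (σ ^ n) = chi l σ ^ n := by
  have : (σ ^ n).toRingEquiv = σ.toRingEquiv ^ n := by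
    induction n with
    | zero => rfl
    | succ n ih => rw [pow_succ, pow_succ, ← ih]; rfl
  simp [chi, this]

lemma exists_pow_mem (U : OpenSubgroup (AlgebraicClosure k ≃ₐ[k] AlgebraicClosure k))
    (σ : AlgebraicClosure k ≃ₐ[k] AlgebraicClosure k) : ∃ n, 0 < n ∧ σ ^ n ∈ U := by
  obtain ⟨E, hE, hEU⟩ := (krullTopology_mem_nhds_one_iff k (AlgebraicClosure k) U).1
    (U.isOpen.mem_nhds U.one_mem)
  obtain ⟨i, j, hij, he⟩ := Finite.exists_ne_map_eq_of_infinite
    (fun n : ℕ => ((σ ^ n : AlgebraicClosure k ≃ₐ[k] AlgebraicClosure k) :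
      AlgebraicClosure k →ₐ[k] AlgebraicClosure k).comp E.val)
  wlog hlt : i < j generalizing i j
  · exact this j i hij.symm he.symm (lt_of_le_of_ne (not_lt.1 hlt) hij.symm)
  refine ⟨j - i, by omega, hEU ?_⟩
  rw [SetLike.mem_coe, IntermediateField.mem_fixingSubgroup_iff]
  intro x hx
  have h1 : (σ ^ i) x = (σ ^ j) x := DFunLike.congr_fun he ⟨x, hx⟩
  apply (σ ^ i).injective
  rw [← AlgEquiv.mul_apply, ← pow_add, h1]
  congr 2
  omega

lemma IsTate.exists_pow {i : ℕ} {θ : ExteriorAlgebra ℚ_[l] (H1 (Pts A) l)} (h : IsTate A l i θ)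
    (σ : AlgebraicClosure k ≃ₐ[k] AlgebraicClosure k) : ∃ n, 0 < n ∧
      ((ExteriorAlgebra.map (pull l (galPts A σ))).toLinearMap ^ n) θ = chi l σ ^ (i * n) • θ := by
  obtain ⟨U, hU⟩ := h.2
  obtain ⟨n, hn, hσ⟩ := exists_pow_mem U σ
  refine ⟨n, hn, ?_⟩
  have h1 := hU _ hσ
  unfold Scales at h1
  rw [pull_gal_pow, chi_pow, ← pow_mul, mul_comm n i] at h1
  rw [← h1]
  have : ∀ (m : ℕ) (t : ExteriorAlgebra ℚ_[l] (H1 (Pts A) l)),
      ((ExteriorAlgebra.map (pull l (galPts A σ))).toLinearMap ^ m) t =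
        ExteriorAlgebra.map (pull l (galPts A σ) ^ m) t := by
    intro m
    induction m with
    | zero => intro t; simp [Module.End.one_eq_id]
    | succ m ih =>
      intro t
      rw [pow_succ', Module.End.mul_apply, ih, pow_succ', Module.End.mul_eq_comp,
        ← ExteriorAlgebra.map_comp_map]
      rfl
  exact this n θ

lemma pull_pow (φ ψ : Pts A →* Pts A) (N : ℕ)
    (h : ∀ (x : TateMod (Pts A) l) m, ψ (x.val m) = φ (x.val m) ^ N) :
    pull l ψ = (N : ℚ_[l]) • pull l φ := by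
  refine LinearMap.ext fun f => Subtype.ext (funext fun x => ?_)
  have key (M : ℕ) (y : TateMod (Pts A) l) (hy : ∀ m, y.val m = φ (x.val m) ^ M) :
      f.1 y = M * f.1 (tmap l φ x) := by
    induction M generalizing y with
    | zero =>
      have := f.2.1 y y y fun m => by rw [hy]; simp
      simpa using this
    | succ M ih =>
      let y' : TateMod (Pts A) l := ⟨fun m => φ (x.val m) ^ M, by simp [x.zero], fun m => by
        rw [← pow_mul, mul_comm, pow_mul, ← map_pow, x.succ]⟩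
      rw [f.2.1 y' (tmap l φ x) y fun m => by rw [hy, pow_succ]; rfl, ih y' fun m => rfl]
      push_cast
      ring
  exact key N (tmap l ψ x) fun m => h x m

end Pool.Agent.P.MP_7b53ad_ag.AV
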