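import Pool.Agent.P.MP_7b53ad_ag.AV.Roots
import Pool.Agent.P.MP_7b53ad_ag.AV.Frob

/-! Tate classes are generated by divisor classes. -/

namespace Pool.Agent.P.MP_7b53ad_ag.AV

open CategoryTheory AlgebraicGeometry Polynomial
open scoped MonObj

theorem main_aux (k : Type) [Field k] (l : ℕ) [Fact l.Prime] (ζ : ℕ → AlgebraicClosure k)
    (A B : Over (Spec (CommRingCat.of k))) [GrpObj A] [GrpObj B] [IsCommMonObj A]
    (J : Type) (h : J → (B ⟶ A)) [∀ j, IsMonHom (h j)]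
    (hspan : ⨆ j, LinearMap.range (pull l (ptsHom (h j))) = ⊤)
    (p a q r g : ℕ) [Fact p.Prime] (ha : 0 < a) (hq : q = p ^ a) (hr : r.Prime)
    (m : ℚ[X]) (hirr : Irreducible m) (hdeg : m.natDegree = 2 * g)
    (hW : ∀ z ∈ m.rootSet ℂ, Complex.normSq z = q)
    (K : Type) [Field K] [NumberField K] (hs : (m.map (algebraMap ℚ K)).Splits)
    (jp : K →+* PadicAlgCl p) (t : (K ≃ₐ[ℚ] K) → ℝ) (n : K → ℤ)
    (hn : ∀ α ∈ m.rootSet K,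
      (n α : ℝ) = ∑ τ, t τ * (1 - 2 * Real.logb ‖(q : PadicAlgCl p)‖ ‖jp (τ α)‖))
    (Φ : Finset K) (hΦ : ∀ α ∈ Φ, α ∈ m.rootSet K)
    (hΦ' : ∀ α ∈ m.rootSet K, α ∈ Φ ↔ (q : K) / α ∉ Φ)
    (P : Subgroup (K ≃ₐ[ℚ] K)) (hP : IsPGroup r P) (htr : ∀ α ∈ Φ, ∀ β ∈ Φ, ∃ τ ∈ P, τ α = β)
    (hsum : ¬ (r : ℤ) ∣ ∑ α ∈ Φ, n α)
    (σ : AlgebraicClosure k ≃ₐ[k] AlgebraicClosure k) (hχ : chi l σ = q)
    (π : A ⟶ A) (πm : Pts A →* Pts A) (hπm : ∀ z, πm z = Pts.map π z) (N : ℕ) (hN : 0 < N)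
    (hπ : ∀ (x : TateMod (Pts A) l) j, πm (x.val j) = galPts A σ (x.val j) ^ N)
    [Module.Finite ℚ_[l] (H1 (Pts A) l)]
    (hchar : (pull l (galPts A σ)).charpoly = m.map (algebraMap ℚ ℚ_[l]))
    (ω : ExteriorAlgebra ℚ_[l] (H1 (Pts A) l)) (hω : IsDivClass A l ζ ω) (hωT : IsTate A l 1 ω)
    (hωg : ω ^ g ≠ 0) (i : ℕ) (θ : ExteriorAlgebra ℚ_[l] (H1 (Pts B) l)) (hθ : IsTate B l i θ) :
    θ ∈ Submodule.span ℚ_[l] {δ | IsDivClass B l ζ δ} ^ i := by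
  let _ : CommMonoid (Pts A) :=
    { Pts.monoid A with mul_comm := fun x y => mul_comm (G := pt k ⟶ A) x y }
  obtain ⟨e₀, he₀, hω0⟩ := hωT.exists_pow σ
  obtain ⟨e, he, hθ0⟩ := hθ.exists_pow σ
  rw [hχ] at hω0 hθ0
  obtain ⟨L, M, u, v, hωuv, -⟩ := id hω
  unfold wedge at hωuv
  have hF : pull l πm = (N : ℚ_[l]) • pull l (galPts A σ) :=
    pull_pow (galPts A σ) πm N hπ
  refine linear_form p a q r g ha hq hr m hirr hdeg hW K hs jp t n hn Φ hΦ hΦ' P hP htr hsum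
    ℚ_[l] (H1 (Pts A) l) (H1 (Pts B) l) (pull l (galPts A σ)) (pull l (galPts B σ)) hchar u v e₀ he₀
    (by rw [← hωuv]; exact hω0) (by rw [← hωuv]; exact hωg) _
    {w | ∃ (f : B ⟶ A) (φ : Pts B →* Pts A), (∀ z, φ z = Pts.map f z) ∧ w = pull l φ}
    ?_ ?_ ?_ ?_ ?_ i e he θ hθ.1 hθ0
  · rintro _ ⟨f, φ, hφ, rfl⟩ _ ⟨f', φ', hφ', rfl⟩
    refine ⟨f * f', φ * φ', fun z => ?_, (pull_add φ φ' (φ * φ') fun z => rfl).symm⟩
    rw [MonoidHom.mul_apply, hφ, hφ']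
    exact (MonObj.comp_mul (X := pt k) z f f').symm
  · rintro _ ⟨f, φ, hφ, rfl⟩
    rw [← hωuv]
    exact Submodule.subset_span (hω.comap f φ hφ)
  · rintro _ ⟨f, φ, hφ, rfl⟩
    refine ⟨N, by exact_mod_cast hN.ne', f ≫ π, πm.comp φ, fun z => ?_, ?_⟩
    · rw [MonoidHom.comp_apply, hπm, hφ]
      exact Category.assoc (W := pt k) z f π
    · rw [pull_comp, hF, LinearMap.comp_smul]
  · rintro _ ⟨f, φ, hφ, rfl⟩
    rw [← pull_comp, ← pull_comp]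
    congr 1
    refine MonoidHom.ext fun z => ?_
    rw [MonoidHom.comp_apply, MonoidHom.comp_apply, hφ, hφ]
    exact Category.assoc (gal σ) z f
  · rw [← hspan]
    refine iSup_le fun j => ?_
    exact le_iSup₂_of_le (f := fun (w : H1 (Pts A) l →ₗ[ℚ_[l]] H1 (Pts B) l) (_ : w ∈ {w | ∃ (f : B ⟶ A)
      (φ : Pts B →* Pts A), (∀ z, φ z = Pts.map f z) ∧ w = pull l φ}) => LinearMap.range w) _
      ⟨h j, ptsHom (h j), fun z => rfl, rfl⟩ le_rfl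

end Pool.Agent.P.MP_7b53ad_ag.AV
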