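import Pool.Agent.P.MP_7b53ad_ag.AV.Alg
import Pool.Agent.P.MP_7b53ad_ag.AV.Crit

/-! The roots of the Weil polynomial and the linear algebra form of the theorem. -/

namespace Pool.Agent.P.MP_7b53ad_ag.AV

open TensorProduct Polynomial Pool.Agent.P.MP_7b53ad_ag

theorem exists_roots (p a q r g : ℕ) [Fact p.Prime] (ha : 0 < a) (hq : q = p ^ a) (hr : r.Prime)
    (m : ℚ[X]) (hirr : Irreducible m) (hdeg : m.natDegree = 2 * g)
    (hW : ∀ z ∈ m.rootSet ℂ, Complex.normSq z = q)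
    (K : Type) [Field K] [NumberField K] (hs : (m.map (algebraMap ℚ K)).Splits)
    (jp : K →+* PadicAlgCl p) (t : (K ≃ₐ[ℚ] K) → ℝ) (n : K → ℤ)
    (hn : ∀ α ∈ m.rootSet K,
      (n α : ℝ) = ∑ τ, t τ * (1 - 2 * Real.logb ‖(q : PadicAlgCl p)‖ ‖jp (τ α)‖))
    (Φ : Finset K) (hΦ : ∀ α ∈ Φ, α ∈ m.rootSet K)
    (hΦ' : ∀ α ∈ m.rootSet K, α ∈ Φ ↔ (q : K) / α ∉ Φ)
    (P : Subgroup (K ≃ₐ[ℚ] K)) (hP : IsPGroup r P) (htr : ∀ α ∈ Φ, ∀ β ∈ Φ, ∃ τ ∈ P, τ α = β)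
    (hsum : ¬ (r : ℤ) ∣ ∑ α ∈ Φ, n α)
    (Ω : Type) [Field Ω] [CharZero Ω] [IsAlgClosed Ω] :
    ∃ (R : Type) (_ : Fintype R) (_ : DecidableEq R) (ε : R → Ω) (c : R → R),
      Function.Injective ε ∧ Fintype.card R = 2 * g ∧ (∀ x, aeval (ε x) m = 0) ∧
      (∀ x, c (c x) = x) ∧ (∀ x, c x ≠ x) ∧ (∀ x, ε x * ε (c x) = q) ∧
      ∀ i e : ℕ, 0 < e → ∀ s : List R, s.length = 2 * i → (s.map ε).prod ^ e = (q : Ω) ^ (i * e) →
        ∀ x, s.count x = s.count (c x) := by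
  classical
  have hp : p.Prime := Fact.out
  have hq0 : q ≠ 0 := by rw [hq]; exact pow_ne_zero _ hp.ne_zero
  let jC : K →+* ℂ := (IsAlgClosed.lift : K →ₐ[ℚ] ℂ).toRingHom
  let jΩ : K →+* Ω := (IsAlgClosed.lift : K →ₐ[ℚ] Ω).toRingHom
  let c : m.rootSet K → m.rootSet K := fun x => ⟨(q : K) / x, (conj_mem jC hq0 hW x).2⟩
  have hqK : (q : K) ≠ 0 := by exact_mod_cast hq0
  have hc (x : m.rootSet K) : (x : K) * c x = q := by
    have := (conj_mem jC hq0 hW x).1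
    simp only [c]; field_simp
  have hcc (x : m.rootSet K) : c (c x) = x := by
    have := (conj_mem jC hq0 hW x).1
    apply Subtype.ext
    simp only [c]; field_simp
  let Ψ : Finset (m.rootSet K) := Finset.univ.filter fun x => (x : K) ∈ Φ
  have hΨ (x : m.rootSet K) : x ∈ Ψ ↔ c x ∉ Ψ := by
    simp only [Ψ, Finset.mem_filter, Finset.mem_univ, true_and, c]
    exact hΦ' x x.2
  have hc' (x : m.rootSet K) : c x ≠ x := by
    intro h
    have h1 := hΨ x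
    rw [h] at h1
    exact iff_not_self h1
  have hcard : Fintype.card (m.rootSet K) = 2 * g := by
    rw [card_rootSet_eq_natDegree hirr.separable hs, hdeg]
  have hq1 : ‖(q : PadicAlgCl p)‖ ≠ 1 := by
    have h1 : ‖(p : PadicAlgCl p)‖ < 1 := by
      rw [← map_natCast (algebraMap ℚ_[p] (PadicAlgCl p)), PadicAlgCl.norm_extends]
      exact Padic.norm_p_lt_one
    rw [hq, Nat.cast_pow, norm_pow]
    exact (pow_lt_one₀ (norm_nonneg _) h1 ha.ne').ne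
  have hsum' : ¬ (r : ℤ) ∣ ∑ x ∈ Ψ, n x := by
    have : ∑ x ∈ Ψ, n x = ∑ α ∈ Φ, n α := by
      refine Finset.sum_bij (fun x _ => (x : K)) (fun x hx => (Finset.mem_filter.1 hx).2)
        (fun x _ y _ h => Subtype.ext h) (fun α hα => ⟨⟨α, hΦ α hα⟩, by simp [Ψ, hα], rfl⟩)
        fun _ _ => rfl
    rwa [this]
  have htr' : ∀ x ∈ Ψ, ∀ y ∈ Ψ, ∃ τ ∈ P, τ • x = y := fun x hx y hy => by
    obtain ⟨τ, hτ, h⟩ := htr x (Finset.mem_filter.1 hx).2 y (Finset.mem_filter.1 hy).2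
    exact ⟨τ, hτ, Subtype.ext h⟩
  refine ⟨m.rootSet K, inferInstance, inferInstance, fun x => jΩ x, c,
    jΩ.injective.comp Subtype.val_injective, hcard,
    fun x => (mem_rootSet.1 ((hom_mem_rootSet jΩ).2 x.2)).2, hcc, hc', fun x => ?_,
    fun i e he l hl hrel => ?_⟩
  · rw [← map_mul, hc, map_natCast]
  · refine count_symm' jp (by exact_mod_cast hq0) hq1 c hcc hc t (fun x => n x)
      (fun x => hn _ x.2)
      (fun hcG hodd u hu => lattice_zero' hr hcc hcG hodd P hP Ψ hΨ htr' hsum' hu) i e he l hl ?_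
    apply jΩ.injective
    simp only [map_pow, map_natCast, map_list_prod, List.map_map]
    exact hrel

theorem linear_form (p a q r g : ℕ) [Fact p.Prime] (ha : 0 < a) (hq : q = p ^ a) (hr : r.Prime)
    (m : ℚ[X]) (hirr : Irreducible m) (hdeg : m.natDegree = 2 * g)
    (hW : ∀ z ∈ m.rootSet ℂ, Complex.normSq z = q)
    (K : Type) [Field K] [NumberField K] (hs : (m.map (algebraMap ℚ K)).Splits)
    (jp : K →+* PadicAlgCl p) (t : (K ≃ₐ[ℚ] K) → ℝ) (n : K → ℤ)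
    (hn : ∀ α ∈ m.rootSet K,
      (n α : ℝ) = ∑ τ, t τ * (1 - 2 * Real.logb ‖(q : PadicAlgCl p)‖ ‖jp (τ α)‖))
    (Φ : Finset K) (hΦ : ∀ α ∈ Φ, α ∈ m.rootSet K)
    (hΦ' : ∀ α ∈ m.rootSet K, α ∈ Φ ↔ (q : K) / α ∉ Φ)
    (P : Subgroup (K ≃ₐ[ℚ] K)) (hP : IsPGroup r P) (htr : ∀ α ∈ Φ, ∀ β ∈ Φ, ∃ τ ∈ P, τ α = β)
    (hsum : ¬ (r : ℤ) ∣ ∑ α ∈ Φ, n α)
    (E V V' : Type) [Field E] [CharZero E] [AddCommGroup V] [Module E V] [FiniteDimensional E V]
    [AddCommGroup V'] [Module E V'] (F : V →ₗ[E] V) (F' : V' →ₗ[E] V')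
    (hF : F.charpoly = m.map (algebraMap ℚ E)) {N : ℕ} (u v : Fin N → V) (e₀ : ℕ) (he₀ : 0 < e₀)
    (hω : ((ExteriorAlgebra.map F).toLinearMap ^ e₀)
      (∑ j, ExteriorAlgebra.ι E (u j) * ExteriorAlgebra.ι E (v j)) =
      (q : E) ^ (1 * e₀) • ∑ j, ExteriorAlgebra.ι E (u j) * ExteriorAlgebra.ι E (v j))
    (hne : (∑ j, ExteriorAlgebra.ι E (u j) * ExteriorAlgebra.ι E (v j)) ^ g ≠ 0)
    (W : Submodule E (ExteriorAlgebra E V')) (S : Set (V →ₗ[E] V'))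
    (hadd : ∀ u ∈ S, ∀ v ∈ S, u + v ∈ S)
    (hS : ∀ w ∈ S, ExteriorAlgebra.map w
      (∑ j, ExteriorAlgebra.ι E (u j) * ExteriorAlgebra.ι E (v j)) ∈ W)
    (hSF : ∀ u ∈ S, ∃ t : E, t ≠ 0 ∧ t • (u ∘ₗ F) ∈ S) (hFF : ∀ u ∈ S, F' ∘ₗ u = u ∘ₗ F)
    (htop : ⊤ ≤ ⨆ u ∈ S, LinearMap.range u) (i e : ℕ) (he : 0 < e)
    (θ : ExteriorAlgebra E V') (hθ : θ ∈ ⋀[E]^(2 * i) V')
    (hT : ((ExteriorAlgebra.map F').toLinearMap ^ e) θ = (q : E) ^ (i * e) • θ) : θ ∈ W ^ i := by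
  let Ω := AlgebraicClosure E
  obtain ⟨R, _, _, ε, c, hε, hcard, hroot, hcc, hc', hqq, hrel⟩ :=
    exists_roots p a q r g ha hq hr m hirr hdeg hW K hs jp t n hn Φ hΦ hΦ' P hP htr hsum Ω
  have hq0 : (q : E) ≠ 0 := by
    rw [hq]; exact_mod_cast pow_ne_zero _ (Fact.out : p.Prime).ne_zero
  have hev (x : R) : Module.End.HasEigenvalue (F.baseChange Ω) (ε x) := by
    rw [Module.End.hasEigenvalue_iff_isRoot_charpoly, LinearMap.charpoly_baseChange, hF,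
      Polynomial.map_map, IsRoot.def, eval_map]
    have : (algebraMap E Ω).comp (algebraMap ℚ E) = algebraMap ℚ Ω := Subsingleton.elim _ _
    rw [this]
    exact hroot x
  choose b hb using fun x => (hev x).exists_hasEigenvector
  have hli := Module.End.eigenvectors_linearIndependent' (F.baseChange Ω) ε hε b hb
  have hR : Nonempty R := Fintype.card_pos_iff.1 (by
    rw [hcard, ← hdeg]; exact hirr.natDegree_pos)
  have hrank : Fintype.card R = Module.finrank Ω (Ω ⊗[E] V) := by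
    rw [Module.finrank_baseChange, ← F.charpoly_natDegree, hF, natDegree_map, hdeg, hcard]
  let B := basisOfLinearIndependentOfCardEqFinrank hli hrank
  have hB (x : R) : F.baseChange Ω (B x) = ε x • B x := by
    simp only [B, coe_basisOfLinearIndependentOfCardEqFinrank]
    exact (hb x).apply_eq_smul
  have hqq' (x : R) : ε x * ε (c x) = algebraMap E Ω q := by rw [hqq, map_natCast]
  have hmat := mat_ne_zero u v B F ε c hB _ e₀ (fun x y h => by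
    have h1 := hrel 1 e₀ he₀ [x, y] rfl (by simpa using h) x
    by_contra hy
    have h2 : ¬ x = c x := fun h => hc' x h.symm
    simp [List.count_cons, h2, hy] at h1) hω _ hcard hne
  obtain ⟨h1, h2⟩ := deg_two u v B F F' ε hε c q hq0 hqq' hB hmat W S hadd hS hSF hFF htop
  exact tate_ext F' ε c hcc hc' (q : E) hqq' h1 i e
    (fun s hs h => hrel i e he s hs (by rwa [map_natCast] at h)) W h2 hθ hT

end Pool.Agent.P.MP_7b53ad_ag.AV
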